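import Mathlib
import Pool.Agent.Helper94.FDC.Upper

set_option autoImplicit false

/-!
The maximum size `m(n,d)` of a distinct difference configuration of diameter at most `d` in the
free group of rank `n ≥ 2` is `(2n-1)^{d/3 + O(1)}`.
-/

namespace Pool.Agent.Results.MP_db30a9_co.ExponentOneThird

/-- `D` is a distinct difference configuration: the elements `g⁻¹ h`, over all ordered pairs
`(g, h)` of distinct elements of `D`, are pairwise distinct. -/
def IsDDC {n : ℕ} (D : Finset (FreeGroup (Fin n))) : Prop :=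
  ∀ g₁ ∈ D, ∀ h₁ ∈ D, ∀ g₂ ∈ D, ∀ h₂ ∈ D, g₁ ≠ h₁ → g₂ ≠ h₂ → g₁⁻¹ * h₁ = g₂⁻¹ * h₂ →
    g₁ = g₂ ∧ h₁ = h₂

/-- `D` has diameter at most `d` in the word metric (`FreeGroup.norm x` is the length of the
reduced word of `x`). -/
def DiamLE {n : ℕ} (D : Finset (FreeGroup (Fin n))) (d : ℕ) : Prop :=
  ∀ g ∈ D, ∀ h ∈ D, FreeGroup.norm (g⁻¹ * h) ≤ d

/-- The cardinalities of the distinct difference configurations of diameter at most `d`. -/
def sizes (n d : ℕ) : Set ℕ := {k | ∃ D : Finset (FreeGroup (Fin n)), IsDDC D ∧ DiamLE D d ∧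
  D.card = k}

/-- `m(n,d)`, the maximum cardinality of a DDC of diameter at most `d` (see the first part of
`result` for the fact that this supremum is a maximum). -/
noncomputable def m (n d : ℕ) : ℕ := sSup (sizes n d)

open Pool.Agent.Helper94.FDC in
theorem mem_bound {n : ℕ} (hn : 2 ≤ n) (d k : ℕ) (hk : k ∈ sizes n d) :
    k ≤ 8 * n * (2 * n - 1) ^ (d / 3 + 2) := by
  obtain ⟨D, h1, h2, rfl⟩ := hk
  exact upper_main n hn d D (fun g₁ a h₁ b g₂ c h₂ e => h1 g₁ a h₁ b g₂ c h₂ e) h2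

theorem bdd {n : ℕ} (hn : 2 ≤ n) (d : ℕ) : BddAbove (sizes n d) :=
  ⟨_, fun k hk => mem_bound hn d k hk⟩

theorem one_mem (n d : ℕ) : 1 ∈ sizes n d := by
  refine ⟨{1}, ?_, ?_, by simp⟩
  · intro g hg h hh
    rw [Finset.mem_singleton] at hg hh
    intro _ _ _ _ hne
    exact absurd (hg.trans hh.symm) hne
  · intro g hg h hh
    rw [Finset.mem_singleton] at hg hh
    subst hg hh
    simp

theorem isGreatest {n : ℕ} (hn : 2 ≤ n) (d : ℕ) : IsGreatest (sizes n d) (m n d) :=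
  ⟨Nat.sSup_mem ⟨1, one_mem n d⟩ (bdd hn d), fun _ hk => le_csSup (bdd hn d) hk⟩

open Pool.Agent.Helper94.FDC in
/-- For every `n ≥ 2` the maximum `m(n,d)` exists, and there is a constant `C` (depending on `n`)
with `|log_{2n-1} m(n,d) - d/3| ≤ C` for all `d`. -/
theorem result : (∀ n : ℕ, 2 ≤ n → ∀ d : ℕ, IsGreatest (sizes n d) (m n d)) ∧
    ∀ n : ℕ, 2 ≤ n → ∃ C : ℝ, ∀ d : ℕ,
      |Real.logb (2 * n - 1) (m n d) - d / 3| ≤ C := by
  refine ⟨fun n hn d => isGreatest hn d, ?_⟩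
  intro n hn
  have hn' : (2 : ℝ) ≤ n := by exact_mod_cast hn
  have hb : (1 : ℝ) < 2 * n - 1 := by linarith
  have hb0 : (0 : ℝ) < 2 * n - 1 := by linarith
  have hcast : (((2 * n - 1 : ℕ) : ℝ)) = 2 * n - 1 := by
    rw [Nat.cast_sub (by omega)]; push_cast; ring
  have h64 : 0 ≤ Real.logb (2 * n - 1) 64 := Real.logb_nonneg hb (by norm_num)
  have h8n : 0 ≤ Real.logb (2 * n - 1) (8 * n) := Real.logb_nonneg hb (by linarith)
  refine ⟨5 + Real.logb (2 * n - 1) 64 + (2 + Real.logb (2 * n - 1) (8 * n)), ?_⟩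
  intro d
  have hg := isGreatest hn d
  have hm1 : 1 ≤ m n d := hg.2 (one_mem n d)
  have hm1r : (1 : ℝ) ≤ m n d := by exact_mod_cast hm1
  have hm0 : (0 : ℝ) < m n d := by linarith
  rw [abs_le]
  constructor
  · rcases Nat.lt_or_ge d 10 with hd | hd
    · have h1 : 0 ≤ Real.logb (2 * n - 1) (m n d) := Real.logb_nonneg hb hm1r
      have h2 : (d : ℝ) ≤ 10 := by exact_mod_cast hd.le
      linarith
    · set q := (d - 10) / 6 with hq
      obtain ⟨D, h1, h2, h3⟩ := lower_main n hn q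
      have hDm : D.card ≤ m n d := by
        apply hg.2
        refine ⟨D, fun g₁ a h₁ b g₂ c h₂ e => h1 g₁ a h₁ b g₂ c h₂ e, ?_, rfl⟩
        intro g hg' h hh
        have := h2 g hg' h hh
        omega
      have h4 : (2 * n - 1) ^ (2 * q) ≤ 64 * m n d := h3.trans (Nat.mul_le_mul_left _ hDm)
      have h5 : ((2 * n - 1 : ℝ)) ^ (2 * q) ≤ 64 * m n d := by
        rw [← hcast]
        exact_mod_cast h4
      have h6 := Real.logb_le_logb_of_le hb (pow_pos hb0 _) h5
      rw [Real.logb_mul (by norm_num) hm0.ne', Real.logb_pow,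
        Real.logb_self_eq_one hb] at h6
      have h7 : (d : ℝ) ≤ 6 * q + 15 := by
        have : d ≤ 6 * q + 15 := by omega
        exact_mod_cast this
      push_cast at h6
      linarith
  · have h1 := mem_bound hn d _ hg.1
    have h2 : (m n d : ℝ) ≤ (8 * n) * (2 * n - 1 : ℝ) ^ (d / 3 + 2) := by
      rw [← hcast]
      exact_mod_cast h1
    have h3 := Real.logb_le_logb_of_le hb hm0 h2
    rw [Real.logb_mul (by positivity) (pow_pos hb0 _).ne', Real.logb_pow,
      Real.logb_self_eq_one hb] at h3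
    have h4 : (((d / 3 : ℕ) : ℝ)) ≤ d / 3 := Nat.cast_div_le
    push_cast at h3
    linarith

end Pool.Agent.Results.MP_db30a9_co.ExponentOneThird
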